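import Pool.Agent.Q44.LD.StmD
import Pool.Agent.Q261.JQ.PAR

set_option autoImplicit false
set_option linter.unusedVariables false

namespace Pool.Agent.Q261.LD

open Finset Module Q44.JQ Q44.LD
open Pool.Agent.Q261.JQ
open scoped Classical

section abs

variable {M : Type} [AddCommGroup M] [Module (ZMod 2) M]

lemma z01 : ∀ c : ZMod 2, c = 0 ∨ c = 1 := by decide

/-- a subspace of codimension one -/
lemma codim [FiniteDimensional (ZMod 2) M] (A L : Submodule (ZMod 2) M) (hle : A ≤ L) (y0 : M) (h0 : y0 ∈ L)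
    (h0A : y0 ∉ A) (h : ∀ y ∈ L, y ∉ A → y + y0 ∈ A) :
    finrank (ZMod 2) L = finrank (ZMod 2) A + 1 := by
  have hne : y0 ≠ 0 := by
    rintro rfl
    exact h0A A.zero_mem
  have e : A ⊔ Submodule.span (ZMod 2) {y0} = L := by
    apply le_antisymm
    · rw [sup_le_iff]
      exact ⟨hle, (Submodule.span_singleton_le_iff_mem _ _).2 h0⟩
    · intro y hy
      by_cases hyA : y ∈ A
      · exact Submodule.mem_sup_left hyA
      · rw [Submodule.mem_sup]
        refine ⟨y + y0, h y hy hyA, y0, Submodule.mem_span_singleton_self _, ?_⟩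
        rw [add_assoc, chr, add_zero]
  have hinf : A ⊓ Submodule.span (ZMod 2) {y0} = ⊥ := by
    rw [eq_bot_iff]
    rintro x ⟨hx1, hx2⟩
    obtain ⟨c, rfl⟩ := Submodule.mem_span_singleton.1 hx2
    have hc : c = 0 ∨ c = 1 := z01 c
    rcases hc with rfl | rfl
    · rw [zero_smul]
      exact Submodule.zero_mem _
    · rw [one_smul] at hx1
      exact absurd hx1 h0A
  have h3 := Submodule.finrank_sup_add_finrank_inf_eq A (Submodule.span (ZMod 2) {y0})
  rw [e, hinf, finrank_bot, finrank_span_singleton hne] at h3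
  omega

/-- the order of an orthogonal space -/
lemma orth_fin [FiniteDimensional (ZMod 2) M] (B : M →ₗ[ZMod 2] M →ₗ[ZMod 2] ZMod 2)
    (nd : ∀ x, (∀ y, B x y = 0) → x = 0) (W : Submodule (ZMod 2) M) :
    finrank (ZMod 2) (LinearMap.ker ((W.subtype.dualMap).comp B)) + finrank (ZMod 2) W = finrank (ZMod 2) M := by
  let Φ : M →ₗ[ZMod 2] Dual (ZMod 2) W := (W.subtype.dualMap).comp B
  have hinj : Function.Injective B := by
    rw [injective_iff_map_eq_zero]
    intro z hz
    exact nd z fun y' => by rw [hz]; rfl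
  have hsur : Function.Surjective B :=
    (LinearMap.injective_iff_surjective_of_finrank_eq_finrank (Subspace.dual_finrank_eq).symm).1 hinj
  have hsur2 : Function.Surjective Φ :=
    (LinearMap.dualMap_surjective_of_injective W.injective_subtype).comp hsur
  have h1 := LinearMap.finrank_range_add_finrank_ker Φ
  rw [LinearMap.range_eq_top.2 hsur2, finrank_top, Subspace.dual_finrank_eq] at h1
  rw [← h1, add_comm]

/-- one of the two singular spaces -/
lemma half [FiniteDimensional (ZMod 2) M] (q : M → ZMod 2) (B : M →ₗ[ZMod 2] M →ₗ[ZMod 2] ZMod 2)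
    (hq : ∀ x y, q (x + y) = q x + q y + B x y)
    (L L' Z : Submodule (ZMod 2) M) (qL : ∀ x ∈ L, q x = 0) (qL' : ∀ x ∈ L', q x = 0) (qZ : ∀ x ∈ Z, q x = 0)
    (oL' : ∀ y, (∀ l ∈ L', B y l = 0) → y ∈ L')
    (cL : ∀ y ∈ L, ∀ y' ∈ L, y ∉ L' → y' ∉ L' → y + y' ∈ L')
    (cL' : ∀ y ∈ L', ∀ y' ∈ L', y ∉ L → y' ∉ L → y + y' ∈ L)
    (z : M) (hz : z ∈ Z) (hzL : z ∈ L) (hzL' : z ∉ L') :
    finrank (ZMod 2) (Z ⊓ L : Submodule (ZMod 2) M) = finrank (ZMod 2) (Z ⊓ L' : Submodule (ZMod 2) M) + 1 := by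
  have hB : ∀ N : Submodule (ZMod 2) M, (∀ x ∈ N, q x = 0) → ∀ x ∈ N, ∀ y ∈ N, B x y = 0 := by
    intro N hN x hx y hy
    have h := hq x y
    rw [hN _ hx, hN _ hy, hN _ (N.add_mem hx hy)] at h
    simpa using h.symm
  have e : Z ⊓ L' = Z ⊓ (L ⊓ L') := by
    apply le_antisymm
    · rintro z' ⟨h1, h2⟩
      refine ⟨h1, ?_, h2⟩
      by_contra h3
      apply hzL'
      refine oL' z fun l hl => ?_
      have hzz : B z z' = 0 := hB Z qZ z hz z' h1
      by_cases hl2 : l ∈ L
      · exact hB L qL z hzL l hl2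
      · have h4 : l + z' ∈ L := cL' l hl z' h2 hl2 h3
        have h5 := hB L qL z hzL _ h4
        rw [map_add, hzz, add_zero] at h5
        exact h5
    · exact inf_le_inf_left _ inf_le_right
  rw [e]
  refine codim _ _ (inf_le_inf_left _ inf_le_left) z ⟨hz, hzL⟩ (fun h => hzL' h.2.2) ?_
  rintro y ⟨hy1, hy2⟩ hy3
  refine ⟨Z.add_mem hy1 hz, L.add_mem hy2 hzL, cL y hy2 z hzL (fun h => hy3 ⟨hy1, hy2, h⟩) hzL'⟩

/-- two maximal singular spaces and a third one -/
lemma two [FiniteDimensional (ZMod 2) M] (q : M → ZMod 2) (B : M →ₗ[ZMod 2] M →ₗ[ZMod 2] ZMod 2)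
    (hq : ∀ x y, q (x + y) = q x + q y + B x y) (nd : ∀ x, (∀ y, B x y = 0) → x = 0)
    (L L' Z : Submodule (ZMod 2) M) (qL : ∀ x ∈ L, q x = 0) (qL' : ∀ x ∈ L', q x = 0) (qZ : ∀ x ∈ Z, q x = 0)
    (oL : ∀ y, (∀ l ∈ L, B y l = 0) → y ∈ L) (oL' : ∀ y, (∀ l ∈ L', B y l = 0) → y ∈ L')
    (oZ : ∀ y, (∀ l ∈ Z, B y l = 0) → y ∈ Z)
    (fL : finrank (ZMod 2) L + finrank (ZMod 2) L = finrank (ZMod 2) M)
    (fL' : finrank (ZMod 2) L' + finrank (ZMod 2) L' = finrank (ZMod 2) M)
    (fZ : finrank (ZMod 2) Z + finrank (ZMod 2) Z = finrank (ZMod 2) M)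
    (hex : ∃ y ∈ L, y ∉ L')
    (cL : ∀ y ∈ L, ∀ y' ∈ L, y ∉ L' → y' ∉ L' → y + y' ∈ L') :
    finrank (ZMod 2) (Z ⊓ L : Submodule (ZMod 2) M) = finrank (ZMod 2) (Z ⊓ L' : Submodule (ZMod 2) M) + 1 ∨
    finrank (ZMod 2) (Z ⊓ L' : Submodule (ZMod 2) M) = finrank (ZMod 2) (Z ⊓ L : Submodule (ZMod 2) M) + 1 := by
  obtain ⟨y0, h0, h0'⟩ := hex
  have hB : ∀ N : Submodule (ZMod 2) M, (∀ x ∈ N, q x = 0) → ∀ x ∈ N, ∀ y ∈ N, B x y = 0 := by
    intro N hN x hx y hy
    have h := hq x y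
    rw [hN _ hx, hN _ hy, hN _ (N.add_mem hx hy)] at h
    simpa using h.symm
  have hsym : ∀ x y, B x y = B y x := by
    intro x y
    have h1 := hq x y
    have h2 := hq y x
    rw [add_comm y x, h1] at h2
    linear_combination h2
  have hc : finrank (ZMod 2) L = finrank (ZMod 2) (L ⊓ L' : Submodule (ZMod 2) M) + 1 :=
    codim _ _ inf_le_left y0 h0 (fun h => h0' h.2) fun y hy hyA =>
      ⟨L.add_mem hy h0, cL y hy y0 h0 (fun h => hyA ⟨hy, h⟩) h0'⟩
  -- the other space
  obtain ⟨z0, g0, g0'⟩ : ∃ y ∈ L', y ∉ L := by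
    by_contra hno
    push Not at hno
    have h1 : L' = L := Submodule.eq_of_le_of_finrank_eq hno (by omega)
    exact h0' (h1 ▸ h0)
  have cL' : ∀ y ∈ L', ∀ y' ∈ L', y ∉ L → y' ∉ L → y + y' ∈ L := by
    intro y hy y' hy' hyn hyn'
    have hne : y ≠ 0 := by
      rintro rfl
      exact hyn L.zero_mem
    have hinf : (L ⊓ L') ⊓ Submodule.span (ZMod 2) {y} = ⊥ := by
      rw [eq_bot_iff]
      rintro x ⟨hx1, hx2⟩
      obtain ⟨c, rfl⟩ := Submodule.mem_span_singleton.1 hx2
      have hc : c = 0 ∨ c = 1 := z01 c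
      rcases hc with rfl | rfl
      · rw [zero_smul]
        exact Submodule.zero_mem _
      · rw [one_smul] at hx1
        exact absurd hx1.1 hyn
    have h3 := Submodule.finrank_sup_add_finrank_inf_eq (L ⊓ L') (Submodule.span (ZMod 2) {y})
    rw [hinf, finrank_bot, finrank_span_singleton hne] at h3
    have h4 : (L ⊓ L') ⊔ Submodule.span (ZMod 2) {y} = L' :=
      Submodule.eq_of_le_of_finrank_eq
        (sup_le inf_le_right ((Submodule.span_singleton_le_iff_mem _ _).2 hy)) (by omega)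
    rw [← h4, Submodule.mem_sup] at hy'
    obtain ⟨a, ha, b, hb, rfl⟩ := hy'
    obtain ⟨c, rfl⟩ := Submodule.mem_span_singleton.1 hb
    have hc : c = 0 ∨ c = 1 := z01 c
    rcases hc with rfl | rfl
    · rw [zero_smul, add_zero] at hyn'
      exact absurd ha.1 hyn'
    · rw [one_smul, add_comm a y, ← add_assoc, chr, zero_add]
      exact ha.1
  -- an element of `Z` orthogonal to the intersection
  obtain ⟨z, hzZ, hzA, hzn⟩ : ∃ z ∈ Z, (∀ a ∈ L ⊓ L', B z a = 0) ∧ z ∉ L ⊓ L' := by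
    have h1 := orth_fin B nd ((L ⊓ L') ⊔ Z)
    have h2 := Submodule.finrank_sup_add_finrank_inf_eq (L ⊓ L') Z
    have h5 : ∀ x ∈ LinearMap.ker ((((L ⊓ L') ⊔ Z).subtype.dualMap).comp B),
        ∀ w ∈ (L ⊓ L') ⊔ Z, B x w = 0 := by
      intro x hx w hw
      exact LinearMap.congr_fun (LinearMap.mem_ker.1 hx) ⟨w, hw⟩
    by_contra hno
    push Not at hno
    have h3 : LinearMap.ker ((((L ⊓ L') ⊔ Z).subtype.dualMap).comp B) ≤ (L ⊓ L') ⊓ Z := by
      intro x hx
      have hxZ : x ∈ Z := oZ x fun l hl => h5 x hx l (Submodule.mem_sup_right hl)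
      exact ⟨hno x hxZ fun a ha => h5 x hx a (Submodule.mem_sup_left ha), hxZ⟩
    have h4 := Submodule.finrank_mono h3
    omega
  -- it lies in one of the two spaces
  have key : z ∈ L ∨ z ∈ L' := by
    have hyz : B y0 z0 = 1 := by
      by_contra hne
      have h0z : B y0 z0 = 0 := by
        have : ∀ a : ZMod 2, a ≠ 1 → a = 0 := by decide
        exact this _ hne
      apply h0'
      refine oL' y0 fun l hl => ?_
      by_cases hl2 : l ∈ L
      · exact hB L qL y0 h0 l hl2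
      · have h4 : l + z0 ∈ L := cL' l hl z0 g0 hl2 g0'
        have h5 := hB L qL y0 h0 _ h4
        rw [map_add, h0z, add_zero] at h5
        exact h5
    have h00 : B y0 y0 = 0 := hB L qL y0 h0 y0 h0
    have h11 : B z0 z0 = 0 := hB L' qL' z0 g0 z0 g0
    set a := B z y0 with ha
    set b := B z z0 with hb
    let w := z + (b • y0 + a • z0)
    have hw : ∀ x, B w x = B z x + (b * B y0 x + a * B z0 x) := by
      intro x
      show B (z + (b • y0 + a • z0)) x = _
      simp only [map_add, map_smul, LinearMap.add_apply, LinearMap.smul_apply, smul_eq_mul]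
    have hwA : ∀ x ∈ L ⊓ L', B w x = 0 := by
      intro x hx
      rw [hw, hzA x hx, hB L qL y0 h0 x hx.1, hB L' qL' z0 g0 x hx.2]
      simp
    have hwy : B w y0 = 0 := by
      rw [hw, h00, ← ha, hsym z0 y0, hyz, mul_zero, zero_add, mul_one]
      exact z2s a
    have hwz : B w z0 = 0 := by
      rw [hw, h11, ← hb, hyz, mul_zero, add_zero, mul_one]
      exact z2s b
    have hwL : w ∈ L := oL w fun l hl => by
      by_cases hl2 : l ∈ L'
      · exact hwA l ⟨hl, hl2⟩
      · have h4 : l + y0 ∈ L ⊓ L' := ⟨L.add_mem hl h0, cL l hl y0 h0 hl2 h0'⟩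
        have h5 := hwA _ h4
        rw [map_add, hwy, add_zero] at h5
        exact h5
    have hwL' : w ∈ L' := oL' w fun l hl => by
      by_cases hl2 : l ∈ L
      · exact hwA l ⟨hl2, hl⟩
      · have h4 : l + z0 ∈ L ⊓ L' := ⟨cL' l hl z0 g0 hl2 g0', L'.add_mem hl g0⟩
        have h5 := hwA _ h4
        rw [map_add, hwz, add_zero] at h5
        exact h5
    have hzw : z = w + (b • y0 + a • z0) := by
      show z = z + (b • y0 + a • z0) + (b • y0 + a • z0)
      rw [add_assoc, chr, add_zero]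
    have hqz := qZ z hzZ
    rw [hzw, hq, qL w hwL, map_add, hq, qL _ (L.smul_mem b h0), qL' _ (L'.smul_mem a g0),
      hB L qL w hwL _ (L.smul_mem b h0), hB L' qL' w hwL' _ (L'.smul_mem a g0), map_smul, map_smul,
      LinearMap.smul_apply, hyz] at hqz
    simp only [smul_eq_mul, mul_one, zero_add, add_zero] at hqz
    rcases mul_eq_zero.1 hqz with h | h
    · left
      rw [hzw, h, zero_smul, add_zero]
      exact L.add_mem hwL (L.smul_mem _ h0)
    · right
      rw [hzw, h, zero_smul, zero_add]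
      exact L'.add_mem hwL' (L'.smul_mem _ g0)
  rcases key with h | h
  · left
    exact half q B hq L L' Z qL qL' qZ oL' cL cL' z hzZ h fun h2 => hzn ⟨h, h2⟩
  · right
    exact half q B hq L' L Z qL' qL qZ oL cL' cL z hzZ h fun h2 => hzn ⟨h2, h⟩

end abs

/-- **LD-LAG3** -/
theorem t_LAG3 : S_LAG3 := by
  intro s V _ _ _ _ D D' ρ ρ' hD hD' hω hqq hex hc
  have hfin : FiniteDimensional (ZMod 2) V := Module.Finite.of_finite
  have hL : ∀ (D : Dj s V) (ρ : s → ZMod 2), D.Ok ρ →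
      finrank (ZMod 2) D.𝓛 = Fintype.card s * finrank (ZMod 2) V := by
    intro D ρ hD
    have h1 := Module.natCard_eq_pow_finrank (K := ZMod 2) (V := D.𝓛)
    have h2 := Module.natCard_eq_pow_finrank (K := ZMod 2) (V := V)
    have hc := hD.card
    rw [h1, h2, ← pow_mul, Nat.card_zmod] at hc
    have := Nat.pow_right_injective (le_refl 2) hc
    rw [this, mul_comm]
  have h4 : finrank (ZMod 2) ((s → V) × (s → V)) =
      Fintype.card s * finrank (ZMod 2) V + Fintype.card s * finrank (ZMod 2) V := by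
    rw [finrank_prod, finrank_pi_fintype]
    simp
  have hBB : ∀ x y, Bq D x y = Bq D' x y := by
    intro x y
    have h1 := q_add D x y
    have h2 := q_add D' x y
    rw [hqq, hqq, hqq, h2] at h1
    exact (add_left_cancel h1).symm
  let Z : Submodule (ZMod 2) ((s → V) × (s → V)) := LinearMap.range (LinearMap.inl (ZMod 2) (s → V) (s → V))
  have hZ : ∀ x, x ∈ Z ↔ x.2 = 0 := by
    intro x
    constructor
    · rintro ⟨δ, rfl⟩
      rfl
    · intro h
      exact ⟨x.1, Prod.ext rfl h.symm⟩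
  have fZ : finrank (ZMod 2) Z = Fintype.card s * finrank (ZMod 2) V := by
    rw [LinearMap.finrank_range_of_inj LinearMap.inl_injective, finrank_pi_fintype]
    simp
  have hpm : ∀ D : Dj s V, finrank (ZMod 2) D.pm = finrank (ZMod 2) (Z ⊓ D.𝓛 : Submodule (ZMod 2) _) := by
    intro D
    have h1 := LinearEquiv.finrank_eq (Submodule.equivMapOfInjective (LinearMap.inl (ZMod 2) (s → V) (s → V))
      LinearMap.inl_injective D.pm)
    rw [h1]
    unfold Dj.pm
    rw [Submodule.map_comap_eq]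
  have h := two D.q (Bq D) (q_add D) (Bq_nd D hD.toSym hD.nd) D.𝓛 D'.𝓛 Z hD.sing
    (fun x hx => by rw [hqq]; exact hD'.sing x hx)
    (by
      intro x hx
      have h2 := (hZ x).1 hx
      unfold Dj.q
      simp [h2])
    (self_orth D ρ hD)
    (fun y hy => self_orth D' ρ' hD' y fun l hl => by rw [← hBB]; exact hy l hl)
    (by
      intro y hy
      rw [hZ]
      funext t
      refine hD.nd _ fun v => ?_
      have h1 := hy (Pi.single t v, 0) ((hZ _).2 rfl)
      rw [Bq_apply, Finset.sum_eq_single t] at h1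
      · simpa using h1
      · intro t' _ ht
        simp [Pi.single_eq_of_ne ht]
      · intro ht; exact absurd (mem_univ _) ht)
    (by rw [hL D ρ hD, h4]) (by rw [hL D' ρ' hD', h4]) (by rw [fZ, h4]) hex hc
  rw [hpm D, hpm D']
  rcases h with h | h
  · rw [h, Nat.cast_add, Nat.cast_one]
  · rw [h, Nat.cast_add, Nat.cast_one, add_assoc, z2s, add_zero]

end Pool.Agent.Q261.LD
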