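import Pool.Agent.Q44.LD.StmD
import Pool.Agent.Q121.JQ.LSZ
import Pool.Agent.Q121.JQ.LCL
import Pool.Agent.Q24.JQ.LBL

set_option autoImplicit false
set_option linter.unusedVariables false

namespace Pool.Agent.Q261.LD

open Finset Module Q44.JQ Q44.LD
open Pool.Agent.Q121.JQ (rr rr_inj pt_imJ imJ_one SC_real mk_one_iff mk_eq mem_imJ t_LSZ dz_ne)
open Pool.Agent.TH344.JG (LocJ)
open Pool.Agent.Y723.PT (tw LG tw_inj locJ_iff)
open scoped Classical

/-- the signs of a class of the real local image -/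
theorem real_sgn {a : Fin 3 → ℤ} (ha : Function.Injective a) (i : Fin 3) (hia : ∀ j, j ≠ i → a i < a j)
    (d : Fin 3 → ℤ) (hd : ∀ j, d j ≠ 0) (h : LocJ ℝ a d) :
    (∀ j, 0 < d j) ∨ (0 < d i ∧ ∀ j, j ≠ i → d j < 0) := by
  have hfin : Finite (SC ℝ) := SC_real.1
  have hc : Nat.card (imJ ℝ a) ≤ 2 := (t_LSZ.2 a ha).le.trans SC_real.2
  have hlt : ∀ j, j ≠ i → rr a i + 1 ≤ rr a j := fun j hj => by
    have h1 := hia j hj
    unfold rr
    linarith
  obtain ⟨x, hx⟩ : ∃ x : ℝ, x = (rr a i : ℝ) + 1 / 2 := ⟨_, rfl⟩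
  have hxi : x - (rr a i : ℝ) = 1 / 2 := by rw [hx]; ring
  have hxj : ∀ j, j ≠ i → x - (rr a j : ℝ) < 0 := fun j hj => by
    have h1 : ((rr a i : ℝ)) + 1 ≤ (rr a j : ℝ) := by exact_mod_cast hlt j hj
    rw [hx]
    linarith
  have hne : ∀ j, x - ((rr a j : ℤ) : ℝ) ≠ 0 := fun j => by
    by_cases hj : j = i
    · rw [hj, hxi]; norm_num
    · exact (hxj j hj).ne
  have hpos : 0 ≤ (x - (rr a 0 : ℤ)) * (x - (rr a 1 : ℤ)) * (x - (rr a 2 : ℤ)) := by
    have hall : ∀ j, x - ((rr a j : ℤ) : ℝ) = 1 / 2 ∧ j = i ∨ x - ((rr a j : ℤ) : ℝ) < 0 ∧ j ≠ i := by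
      intro j
      by_cases hj : j = i
      · left; exact ⟨by rw [hj, hxi], hj⟩
      · right; exact ⟨hxj j hj, hj⟩
    rcases hall 0 with ⟨h0, e0⟩ | ⟨h0, e0⟩ <;> rcases hall 1 with ⟨h1, e1⟩ | ⟨h1, e1⟩ <;>
      rcases hall 2 with ⟨h2, e2⟩ | ⟨h2, e2⟩
    · exact absurd (e0.trans e1.symm) (by decide)
    · exact absurd (e0.trans e1.symm) (by decide)
    · exact absurd (e0.trans e2.symm) (by decide)
    · rw [h0, mul_assoc]
      exact mul_nonneg (by norm_num) (mul_nonneg_of_nonpos_of_nonpos h1.le h2.le)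
    · exact absurd (e1.trans e2.symm) (by decide)
    · rw [h1, mul_comm (x - ((rr a 0 : ℤ) : ℝ)), mul_assoc]
      exact mul_nonneg (by norm_num) (mul_nonneg_of_nonpos_of_nonpos h0.le h2.le)
    · rw [h2]
      exact mul_nonneg (mul_nonneg_of_nonpos_of_nonpos h0.le h1.le) (by norm_num)
    · exfalso
      fin_cases i
      · exact e0 rfl
      · exact e1 rfl
      · exact e2 rfl
  have hm := pt_imJ (a := a) (x := x)
    (y := √((x - (rr a 0 : ℤ)) * (x - (rr a 1 : ℤ)) * (x - (rr a 2 : ℤ)))) (Real.sq_sqrt hpos) hne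
  obtain ⟨m, hmm⟩ : ∃ m : Fin 3 → SC ℝ, m = fun i => QuotientGroup.mk (Units.mk0 (x - ((rr a i : ℤ) : ℝ)) (hne i)) :=
    ⟨_, rfl⟩
  rw [← hmm] at hm
  obtain ⟨j, hj⟩ : ∃ j : Fin 3, j ≠ i := exists_ne i
  have hn1 : m ≠ 1 := by
    intro h
    have h1 := congrFun h j
    rw [hmm, Pi.one_apply, mk_one_iff, Units.val_mk0] at h1
    obtain ⟨r, hr⟩ := h1
    have := hxj j hj
    nlinarith [mul_self_nonneg r]
  -- the class of `d`
  have hd0 : ∀ j, ((d j : ℤ) : ℝ) ≠ 0 := fun j => by exact_mod_cast hd j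
  have hdm : (fun j => QuotientGroup.mk (Units.mk0 ((d j : ℤ) : ℝ) (hd0 j)) : Fin 3 → SC ℝ) ∈ imJ ℝ a := by
    rw [mem_imJ]
    refine ⟨fun j => Units.mk0 ((d j : ℤ) : ℝ) (hd0 j), fun j => rfl, ?_⟩
    simp only [Units.val_mk0]
    exact locJ_iff.1 h
  obtain ⟨w, hw⟩ : ∃ w : Fin 3 → SC ℝ, w = fun j => QuotientGroup.mk (Units.mk0 ((d j : ℤ) : ℝ) (hd0 j)) :=
    ⟨_, rfl⟩
  rw [← hw] at hdm
  have hcase : w = 1 ∨ w = m := by
    by_contra hno
    push Not at hno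
    have h3 : ({w, 1, m} : Set (Fin 3 → SC ℝ)).ncard = 3 :=
      Set.ncard_eq_three.2 ⟨w, 1, m, hno.1, hno.2, hn1.symm, rfl⟩
    have h4 : ({w, 1, m} : Set (Fin 3 → SC ℝ)) ⊆ imJ ℝ a := by
      intro z hz
      rcases hz with rfl | rfl | rfl
      · exact hdm
      · exact imJ_one a
      · exact hm
    have h5 := Set.ncard_le_ncard h4 (Set.toFinite _)
    rw [h3, ← Nat.card_coe_set_eq] at h5
    omega
  rcases hcase with h1 | h1
  · left
    intro j
    have h2 := congrFun h1 j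
    rw [hw, Pi.one_apply, mk_one_iff, Units.val_mk0] at h2
    have h3 := h2.nonneg
    have h4 : (0 : ℤ) ≤ d j := by exact_mod_cast h3
    exact lt_of_le_of_ne h4 (hd j).symm
  · right
    have h2 : ∀ j, 0 ≤ ((d j : ℤ) : ℝ) * (x - ((rr a j : ℤ) : ℝ)) := by
      intro j
      have h2 := congrFun h1 j
      rw [hw, hmm] at h2
      have h3 := (mk_eq _ _).1 h2
      rw [Units.val_mk0, Units.val_mk0] at h3
      exact h3.nonneg
    constructor
    · have h3 := h2 i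
      rw [hxi] at h3
      have h4 : (0 : ℝ) ≤ ((d i : ℤ) : ℝ) := by linarith
      have h5 : (0 : ℤ) ≤ d i := by exact_mod_cast h4
      exact lt_of_le_of_ne h5 (hd i).symm
    · intro j hj
      have h3 := h2 j
      have h4 : ((d j : ℤ) : ℝ) ≤ 0 := by
        by_contra h5
        push Not at h5
        have := mul_neg_of_pos_of_neg h5 (hxj j hj)
        linarith
      have h5 : d j ≤ 0 := by exact_mod_cast h4
      exact lt_of_le_of_ne h5 (hd j)

lemma vsum (i : Fin 3) : ∑ k, (if k = i then (0 : ZMod 2) else 1) = 0 := by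
  revert i
  decide

/-- the vector of weight 2 which vanishes at `i` -/
def vec (i : Fin 3) : VV 3 := ⟨fun k => if k = i then 0 else 1, vsum i⟩

lemma vec_ne (i : Fin 3) : vec i ≠ 0 := by
  intro h
  have h1 : ∀ k, (if k = i then (0 : ZMod 2) else 1) = 0 := fun k => congrFun (congrArg Subtype.val h) k
  obtain ⟨j, hj⟩ : ∃ j : Fin 3, j ≠ i := exists_ne i
  have h2 := h1 j
  rw [if_neg hj] at h2
  exact absurd h2 (by decide)

lemma vec_ne' {i l : Fin 3} (hil : i ≠ l) : vec i ≠ vec l := by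
  intro h
  have h1 : (if i = i then (0 : ZMod 2) else 1) = (if i = l then (0 : ZMod 2) else 1) :=
    congrFun (congrArg Subtype.val h) i
  rw [if_pos rfl, if_neg hil] at h1
  exact absurd h1 (by decide)

section

variable {T : Finset ℕ}

lemma Uo_eq (γ : Option T → ZMod 2) :
    Uo γ = (if γ none = 0 then 1 else -1) * ∏ t : T, if γ (some t) = 0 then (1 : ℤ) else ((t : ℕ) : ℤ) := by
  unfold Uo
  rw [Fintype.prod_option]
  rfl

lemma Uo_pos (hT : ∀ p ∈ T, p.Prime) (γ : Option T → ZMod 2) : 0 < Uo γ ↔ γ none = 0 := by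
  have h1 : 0 < ∏ t : T, if γ (some t) = 0 then (1 : ℤ) else ((t : ℕ) : ℤ) := by
    refine prod_pos fun t _ => ?_
    split_ifs
    · exact one_pos
    · exact_mod_cast (hT t t.2).pos
  rw [Uo_eq]
  by_cases h : γ none = 0
  · rw [if_pos h, one_mul]
    exact ⟨fun _ => h, fun _ => h1⟩
  · rw [if_neg h]
    constructor
    · intro h2
      nlinarith
    · intro h2
      exact absurd h2 h

lemma cop_ne (hT2 : 2 ∈ T) {n : ℕ} (h : Cop T n) : n ≠ 0 := by
  rintro rfl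
  exact h 2 hT2 (dvd_zero _)

lemma z01' : ∀ a : ZMod 2, a ≠ 0 → a = 1 := by decide

lemma lc_cases (hT : ∀ p ∈ T, p.Prime) (hT2 : 2 ∈ T) (hg : 1 ≤ 1) (a : Fin (2 * 1 + 1) → ℤ)
    (inj : Function.Injective a)
    (supp : ∀ i j, i ≠ j → ∀ p : ℕ, p.Prime → (p : ℤ) ∣ a i - a j → p ∈ T) (i : Fin 3)
    (hi : ∀ j, j ≠ i → a i < a j) (ρ : Option T → ZMod 2)
    (y : (Option T → VV 3) × (Option T → VV 3)) (h : (Cr.mk (T := T) 1 hg a inj supp).Lc ℝ ρ y) :
    y.1 none = 0 ∨ y.1 none = vec i := by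
  obtain ⟨n, z, hn, hρ, hz, hloc⟩ := h
  have hn0 : 0 < (n : ℤ) := by
    have := cop_ne hT2 hn
    omega
  have hz0 : ∀ j, z j ≠ 0 := fun j => cop_ne hT2 (hz j).1
  have hd0 := dz_ne hT (Cr.mk (T := T) 1 hg a inj supp) y.1 z hz0
  have h1 := real_sgn (a := tw n a) (tw_inj hn0.ne' inj) i (fun j hj => by
    show (n : ℤ) * a i < (n : ℤ) * a j
    exact mul_lt_mul_of_pos_left (hi j hj) hn0) _ hd0 hloc
  have h2 : ∀ j : Fin 3, 0 < (Cr.mk (T := T) 1 hg a inj supp).dz y.1 z j ↔ (y.1 none).1 j = 0 := by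
    intro j
    show 0 < Uo (fun o => (y.1 o).1 j) * (z j : ℤ) ↔ _
    have h3 : 0 < (z j : ℤ) := by
      have := hz0 j
      omega
    rw [mul_pos_iff_of_pos_right h3, Uo_pos hT]
  rcases h1 with h1 | ⟨h1, h1'⟩
  · left
    refine Subtype.ext (funext fun j => ?_)
    exact (h2 j).1 (h1 j)
  · right
    refine Subtype.ext (funext fun j => ?_)
    show (y.1 none).1 j = if j = i then 0 else 1
    by_cases hj : j = i
    · rw [if_pos hj, hj]
      exact (h2 i).1 h1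
    · rw [if_neg hj]
      refine z01' _ fun h3 => ?_
      exact absurd ((h2 j).2 h3) (not_lt.2 (h1' j hj).le)

lemma prime_cop {p : ℕ} (hT : ∀ p ∈ T, p.Prime) (hp : p.Prime) (h : p ∉ T) : Cop T p := by
  intro q hq hd
  have := (Nat.prime_dvd_prime_iff_eq (hT q hq) hp).1 hd
  exact h (this ▸ hq)

/-- positive classes are in the real local image -/
lemma lc_pos (hT : ∀ p ∈ T, p.Prime) (hT2 : 2 ∈ T) (c : Cr T) (ρ : Option T → ZMod 2)
    (y : (Option T → c.V) × (Option T → c.V)) (h : y.1 none = 0) : c.Lc ℝ ρ y := by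
  have hex := (Pool.Agent.Q24.JQ.t_LBL T hT hT2).2.2.2.1
  obtain ⟨n, hn, -, hnT, hnρ⟩ := hex ρ 0
  have hex2 : ∀ i, ∃ p : ℕ, p.Prime ∧ 0 < p ∧ p ∉ T ∧ lbl T p = fun o => (y.2 o).1 i := fun i => hex _ 0
  choose z hz using hex2
  refine ⟨n, z, prime_cop hT hn hnT, hnρ, fun i => ⟨prime_cop hT (hz i).1 (hz i).2.2.1, (hz i).2.2.2⟩, ?_⟩
  rw [locJ_iff]
  refine (LG.one (K := ℝ) _).congr (fun _ => one_ne_zero) fun i => ?_
  have h1 : 0 < c.dz y.1 z i := by
    show 0 < Uo (fun o => (y.1 o).1 i) * (z i : ℤ)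
    have h3 : 0 < (z i : ℤ) := by exact_mod_cast (hz i).2.1
    rw [mul_pos_iff_of_pos_right h3, Uo_pos hT]
    show (y.1 none).1 i = 0
    rw [h]
    rfl
  have h2 : (0 : ℝ) ≤ ((c.dz y.1 z i : ℤ) : ℝ) := by exact_mod_cast h1.le
  rw [one_mul]
  exact ⟨√((c.dz y.1 z i : ℤ) : ℝ), (Real.mul_self_sqrt h2).symm⟩

lemma idx : ∀ i l : Fin 3, i ≠ l → ∃ j, j ≠ i ∧ j ≠ l ∧ (∀ k, k = i ∨ k = j ∨ k = l) ∧
    univ.erase i = {j, l} ∧ univ.erase j = {i, l} ∧ univ.erase l = {i, j} := by decide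

lemma tf_key (P : ℤ → ZMod 2) (hpr : ∀ z, P z = if z < 0 then 1 else 0) (a : Fin 3 → ℤ) (i j l : Fin 3)
    (hil : i ≠ l) (hji : j ≠ i) (hjl : j ≠ l) (hall : ∀ k, k = i ∨ k = j ∨ k = l)
    (e1 : univ.erase i = {j, l}) (e2 : univ.erase j = {i, l}) (e3 : univ.erase l = {i, j})
    (hij' : a i < a j) (hjl' : a j < a l) (k : Fin 3) :
    ∑ j' ∈ univ.erase k, P (a k - a j') * ((vec i).1 k + (vec i).1 j') = 0 := by
  have hv : ∀ k : Fin 3, (vec i).1 k = if k = i then 0 else 1 := fun _ => rfl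
  rcases hall k with h | h | h
  · rw [h, e1, Finset.sum_pair hjl, hpr, hpr, if_pos (by omega), if_pos (by omega), hv, hv, hv,
      if_pos rfl, if_neg hji, if_neg hil.symm]
    decide
  · rw [h, e2, Finset.sum_pair hil, hpr, hpr, if_neg (by omega), if_pos (by omega), hv, hv, hv,
      if_neg hji, if_pos rfl, if_neg hil.symm]
    decide
  · rw [h, e3, Finset.sum_pair hji.symm, hpr, hpr, if_neg (by omega), if_neg (by omega)]
    simp

end

/-- **LD-RSGN** -/
theorem t_RSGN : S_RSGN := by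
  intro T hT hT2 c hc
  obtain ⟨g, hg, a, inj, supp⟩ := c
  change g = 1 at hc
  subst hc
  obtain ⟨i, hi⟩ := Finite.exists_min (a : Fin 3 → ℤ)
  obtain ⟨l, hl⟩ := Finite.exists_max (a : Fin 3 → ℤ)
  have hi' : ∀ j, j ≠ i → a i < a j := fun j hj => lt_of_le_of_ne (hi j) fun h => hj (inj h).symm
  have hl' : ∀ j, j ≠ l → a j < a l := fun j hj => lt_of_le_of_ne (hl j) fun h => hj (inj h)
  have hil : i ≠ l := by
    rintro rfl
    obtain ⟨j, hj⟩ : ∃ j : Fin 3, j ≠ i := exists_ne i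
    exact absurd (hi' j hj) (not_lt.2 (hl' j hj).le)
  refine ⟨vec i, vec l, vec_ne i, vec_ne l, vec_ne' hil, fun ρ y h => ?_, fun ρ y h => ?_, ⟨vec i, ?_⟩,
    fun ρ y h => ?_⟩
  · exact lc_cases hT hT2 hg a inj supp i hi' ρ y h
  · exact lc_cases hT hT2 hg (fun k => -a k) _ _ l (fun j hj => by
      have := hl' j hj
      show -a l < -a j
      omega) ρ y h
  · obtain ⟨j, hji, hjl, hall, e1, e2, e3⟩ := idx i l hil
    have hij' : a i < a j := hi' j hji
    have hjl' : a j < a l := hl' j hjl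
    have hpr : ∀ z : ℤ, pr (Pi.single none 1 : Option T → ZMod 2) z = if z < 0 then 1 else 0 := by
      intro z
      unfold pr
      rw [Finset.sum_eq_single none]
      · rw [Pi.single_eq_same, one_mul]
        rfl
      · intro o _ ho
        rw [Pi.single_eq_of_ne ho, zero_mul]
      · intro ho
        exact absurd (mem_univ _) ho
    refine Subtype.ext (funext fun k => ?_)
    show (∑ j' ∈ univ.erase k, pr (Pi.single none 1 : Option T → ZMod 2) (a k - a j') *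
      ((vec i).1 k + (vec i).1 j')) + (Pi.single none 1 : Option T → ZMod 2) none * (vec i).1 k = (vec i).1 k
    rw [Pi.single_eq_same, one_mul]
    have key : ∑ j' ∈ univ.erase k, pr (Pi.single none 1 : Option T → ZMod 2) (a k - a j') *
      ((vec i).1 k + (vec i).1 j') = 0 :=
      tf_key _ hpr a i j l hil hji hjl hall e1 e2 e3 hij' hjl' k
    rw [key, zero_add]
  · exact lc_pos hT hT2 (negC (Cr.mk 1 hg a inj supp)) ρ y h

end Pool.Agent.Q261.LD
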